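import Pool.Agent.R459.Nbhd
import Pool.Agent.TH823.Fam.Fam2

set_option autoImplicit false

/-! The additive energy of the values of a polynomial at the elements of a dense set; Goldbach pairs in all windows for
all the (even) integers close to such values. -/

namespace Pool.Agent.H544G
open Finset Polynomial
open Pool.Agent.TH935.GF (En)
open Pool.Agent.H373R2.T7 (energy ev_L' ev_log')

/-- the energy of a family indexed by a subset of `{1, ..., x}` -/
lemma En_subset (h x : ℕ) (s : ℕ → ℤ) (M : Finset ℕ) (hM : M ⊆ Icc 1 x) :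
    En h (fun i : {i // i ∈ M} => s i.1) ≤ energy h x s := by
  classical
  unfold energy En
  rw [Nat.card_eq_fintype_card, Fintype.card_subtype]
  apply card_le_card_of_injOn
    (fun q : (Fin h → {i // i ∈ M}) × (Fin h → {i // i ∈ M}) => ((fun j => (q.1 j).1), (fun j => (q.2 j).1)))
  · intro q hq
    rw [mem_coe, mem_filter] at hq
    rw [mem_coe, mem_filter, mem_product, Fintype.mem_piFinset, Fintype.mem_piFinset]
    exact ⟨⟨fun j => hM (q.1 j).2, fun j => hM (q.2 j).2⟩, hq.2⟩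
  · intro q _ q' _ h2
    simp only [Prod.mk.injEq] at h2
    apply Prod.ext
    · funext j
      exact Subtype.ext (congrFun h2.1 j)
    · funext j
      exact Subtype.ext (congrFun h2.2 j)

lemma energy_zero (x : ℕ) (s : ℕ → ℤ) : energy 0 x s = 1 := by
  unfold energy
  rw [filter_true_of_mem]
  · rw [card_product, Fintype.card_piFinset]
    simp
  · intro q _
    simp

/-- the values of a polynomial at the elements of a dense set have nearly minimal energy of some order -/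
theorem dense_energy (f : ℤ[X]) (hd : 1 ≤ f.natDegree) (B C : ℕ) : ∃ p B' C' N₀ : ℕ, 1 ≤ p ∧
    ∀ N : ℕ, N₀ ≤ N → ∀ x : ℕ, x ^ f.natDegree ≤ B * N →
      (N : ℝ) ≤ Real.log N ^ C * (x : ℝ) ^ f.natDegree → ∀ c : ℤ, |c| ≤ B * N →
      ∀ M : Finset ℕ, M ⊆ Icc 1 x → (x : ℝ) ≤ Real.log N ^ C * M.card →
      (∀ i : {i // i ∈ M}, c + f.eval ((i.1 : ℕ) : ℤ) ≤ B' * N) ∧
      (En p (fun i : {i // i ∈ M} => c + f.eval ((i.1 : ℕ) : ℤ)) : ℝ) * N ≤
        Real.log N ^ C' * (Fintype.card {i // i ∈ M} : ℝ) ^ (2 * p) := by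
  classical
  obtain ⟨p, B', hBB, N1, h1⟩ := Pool.Agent.TH823.Fam.poly_family f hd B C
  obtain ⟨N4, h4⟩ := ev_L' 1
  rcases Nat.eq_zero_or_pos p with hp | hp
  · subst hp
    obtain ⟨N3, h3⟩ := ev_log' (C + 1) 1
    refine ⟨1, B', C, N1 + N3 + 4, le_rfl, fun N hN x hx1 hx2 c hc M hM hMc => ?_⟩
    exfalso
    obtain ⟨-, g2⟩ := h1 N (by omega) x hx1 hx2 c hc
    rw [energy_zero, Nat.cast_one, one_mul, mul_zero, pow_zero, mul_one] at g2
    have h5 := h3 N (by omega)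
    rw [one_mul] at h5
    have hN4 : (4 : ℝ) ≤ N := by exact_mod_cast (by omega : 4 ≤ N)
    have h6 : √(N : ℝ) * √(N : ℝ) = N := Real.mul_self_sqrt (by linarith)
    have h7 : 2 ≤ √(N : ℝ) := by
      apply Real.le_sqrt_of_sq_le
      linarith
    nlinarith
  · refine ⟨p, B', C + 1 + C * (2 * p), N1 + N4, hp, fun N hN x hx1 hx2 c hc M hM hMc => ?_⟩
    obtain ⟨g1, g2⟩ := h1 N (by omega) x hx1 hx2 c hc
    have hL := h4 N (by omega)
    have hL0 : 0 ≤ Real.log (N : ℝ) := by linarith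
    have hen : (En p (fun i : {i // i ∈ M} => c + f.eval ((i.1 : ℕ) : ℤ)) : ℝ) ≤
        energy p x (fun m => c + f.eval (m : ℤ)) := by
      exact_mod_cast En_subset p x (fun m => c + f.eval (m : ℤ)) M hM
    refine ⟨fun i => (le_abs_self _).trans (g1 i.1 (hM i.2)), ?_⟩
    rw [Fintype.card_coe]
    calc (En p (fun i : {i // i ∈ M} => c + f.eval ((i.1 : ℕ) : ℤ)) : ℝ) * N
        ≤ (energy p x (fun m => c + f.eval (m : ℤ)) : ℝ) * N := mul_le_mul_of_nonneg_right hen (Nat.cast_nonneg _)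
      _ ≤ Real.log N ^ (C + 1) * (x : ℝ) ^ (2 * p) := g2
      _ ≤ Real.log N ^ (C + 1) * (Real.log N ^ C * M.card) ^ (2 * p) :=
          mul_le_mul_of_nonneg_left (pow_le_pow_left₀ (Nat.cast_nonneg _) hMc _) (pow_nonneg hL0 _)
      _ = Real.log N ^ (C + 1 + C * (2 * p)) * (M.card : ℝ) ^ (2 * p) := by
          rw [mul_pow, ← pow_mul, pow_add _ (C + 1)]
          ring

lemma card_sub (M S : Finset ℕ) (hS : S ⊆ M) :
    (univ.filter (fun i : {i // i ∈ M} => i.1 ∈ S)).card = S.card := by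
  classical
  rw [← Finset.card_map (Function.Embedding.subtype _)]
  congr 1
  ext i
  rw [mem_map]
  constructor
  · rintro ⟨a, ha, rfl⟩
    exact (mem_filter.1 ha).2
  · intro hi
    exact ⟨⟨i, hS hi⟩, mem_filter.2 ⟨mem_univ _, hi⟩, rfl⟩

/-- Goldbach pairs in all windows for all the even integers close to a value of a polynomial at an element of a set of
a density of at least a power of the logarithm -/
theorem dense_poly (f : ℤ[X]) (hd : 1 ≤ f.natDegree) (A B C W U m₀ : ℕ) (ε : ℝ) (hε : 0 < ε) (P : ℕ → Prop)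
    (hP : ∀ m : ℕ, m₀ ≤ m → 2 ∣ m → Pool.Agent.W93.PG.WinP ε A m → P m) :
    ∃ N₀ : ℕ, ∀ N : ℕ, N₀ ≤ N → ∀ x : ℕ, x ^ f.natDegree ≤ B * N →
      (N : ℝ) ≤ Real.log N ^ C * (x : ℝ) ^ f.natDegree → ∀ c : ℤ, |c| ≤ B * N →
      ∀ M : Finset ℕ, M ⊆ Icc 1 x → (x : ℝ) ≤ Real.log N ^ C * M.card →
      ∀ S : Finset ℕ, S ⊆ M → (∀ i ∈ S, ∃ m : ℕ, 0 < m ∧ Even m ∧
        |(((m : ℤ) - (c + f.eval (i : ℤ)) : ℤ) : ℝ)| ≤ Real.log N ^ W ∧ ¬ P m) →
      (S.card : ℝ) ≤ M.card / Real.log N ^ U := by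
  classical
  obtain ⟨p, B', C', N1, hp, h1⟩ := dense_energy f hd B C
  obtain ⟨N2, h2⟩ := Pool.Agent.R459.near_even p A B' C' W U m₀ hp ε hε P hP
  refine ⟨N1 + N2, fun N hN x hx1 hx2 c hc M hM hMc S hS hbad => ?_⟩
  obtain ⟨g1, g2⟩ := h1 N (by omega) x hx1 hx2 c hc M hM hMc
  have key := h2 N (by omega) {i // i ∈ M} (fun i => c + f.eval ((i.1 : ℕ) : ℤ)) g1 g2
    (univ.filter (fun i : {i // i ∈ M} => i.1 ∈ S)) (by
      intro i hi
      rw [mem_filter] at hi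
      exact hbad i.1 hi.2)
  rw [Fintype.card_coe, card_sub M S hS] at key
  exact key

/-- the same for all the even integers `2 n`, `n` close to a value of a polynomial -/
theorem dense_poly_double (f : ℤ[X]) (hd : 1 ≤ f.natDegree) (A B C W U m₀ : ℕ) (ε : ℝ) (hε : 0 < ε) (P : ℕ → Prop)
    (hP : ∀ n : ℕ, m₀ ≤ 2 * n → Pool.Agent.W93.PG.WinP ε A (2 * n) → P n) :
    ∃ N₀ : ℕ, ∀ N : ℕ, N₀ ≤ N → ∀ x : ℕ, x ^ f.natDegree ≤ B * N →
      (N : ℝ) ≤ Real.log N ^ C * (x : ℝ) ^ f.natDegree → ∀ c : ℤ, |c| ≤ B * N →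
      ∀ M : Finset ℕ, M ⊆ Icc 1 x → (x : ℝ) ≤ Real.log N ^ C * M.card →
      ∀ S : Finset ℕ, S ⊆ M → (∀ i ∈ S, ∃ n : ℕ, 0 < n ∧
        |(((n : ℤ) - (c + f.eval (i : ℤ)) : ℤ) : ℝ)| ≤ Real.log N ^ W ∧ ¬ P n) →
      (S.card : ℝ) ≤ M.card / Real.log N ^ U := by
  classical
  obtain ⟨p, B', C', N1, hp, h1⟩ := dense_energy f hd B C
  obtain ⟨N2, h2⟩ := Pool.Agent.R459.near_double p A B' C' W U m₀ hp ε hε P hP
  refine ⟨N1 + N2, fun N hN x hx1 hx2 c hc M hM hMc S hS hbad => ?_⟩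
  obtain ⟨g1, g2⟩ := h1 N (by omega) x hx1 hx2 c hc M hM hMc
  have key := h2 N (by omega) {i // i ∈ M} (fun i => c + f.eval ((i.1 : ℕ) : ℤ)) g1 g2
    (univ.filter (fun i : {i // i ∈ M} => i.1 ∈ S)) (by
      intro i hi
      rw [mem_filter] at hi
      exact hbad i.1 hi.2)
  rw [Fintype.card_coe, card_sub M S hS] at key
  exact key

end Pool.Agent.H544G
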