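import Pool.Agent.H544G.Real
import Pool.Agent.R459.Fam2

set_option autoImplicit false

/-! Correlations of a bounded function with small exponential sums: all the shifts near the real numbers `c + α f(i)`,
for almost all `i` in a dense set. -/

namespace Pool.Agent.H544G
open Finset Polynomial
open Pool.Agent.TH935.GF (En)
open Pool.Agent.H373R2.T7 (ev_L' ev_log' exI SupSmall)

/-- a large sum with a shift near the real number `b` -/
def BigReal (F : ℕ → ℂ) (B W U N L : ℕ) (a : ℕ → ℕ) (g : ℕ → ℕ → ℂ) (b : ℝ) : Prop :=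
  ∃ h : ℤ, |(h : ℝ) - b| ≤ Real.log N ^ W ∧ ∃ l < L, ∃ X : ℕ, a l * X ≤ B * N ∧
    (N : ℝ) / Real.log N ^ U < ‖∑ n ∈ Icc 1 X, g l n * exI F (((a l * n : ℕ) : ℤ) + h)‖

theorem dense_real_corr (F : ℕ → ℂ) (hF : ∀ n, ‖F n‖ ≤ 1) (hsup : SupSmall F) (f : ℤ[X]) (hd : 1 ≤ f.natDegree)
    (B C K W U : ℕ) :
    ∃ N₀ : ℕ, ∀ N : ℕ, N₀ ≤ N → ∀ x : ℕ, x ^ f.natDegree ≤ B * N →
      (N : ℝ) ≤ Real.log N ^ C * (x : ℝ) ^ f.natDegree → ∀ α c : ℝ, 1 ≤ |α| * Real.log N ^ C → |α| ≤ B →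
      |c| ≤ B * N → ∀ M : Finset ℕ, M ⊆ Icc 1 x → (x : ℝ) ≤ Real.log N ^ C * M.card →
      ∀ L : ℕ, (L : ℝ) ≤ Real.log N ^ K → ∀ (a : ℕ → ℕ) (g : ℕ → ℕ → ℂ), (∀ l < L, 1 ≤ a l) →
      (∀ l < L, ∀ n, 1 ≤ n → a l * n ≤ B * N → ‖g l n‖ ≤ Real.log N ^ K) →
      ∀ S : Finset ℕ, S ⊆ M → (∀ i ∈ S, BigReal F B W U N L a g (c + α * ((f.eval (i : ℤ) : ℤ) : ℝ))) →
      (S.card : ℝ) ≤ M.card / Real.log N ^ U := by
  classical
  obtain ⟨p, B', C', N1, hp, h1⟩ := real_energy f hd B C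
  obtain ⟨p2, B2, hBB, N2, h2⟩ := Pool.Agent.TH823.Fam.poly_family f hd B C
  obtain ⟨N3, h3⟩ := Pool.Agent.R459.fam_near_fin F hF hsup p (B + B * B2 + 1) C' K (W + 1) U
  obtain ⟨N4, h4⟩ := ev_L' 2
  refine ⟨N1 + N2 + N3 + N4 + 1, fun N hN x hx1 hx2 α c hα1 hα2 hc M hM hMc L hL a g ha hg S hS hbad => ?_⟩
  obtain ⟨-, e2⟩ := h1 N (by omega) x hx1 hx2 α c hα1 hα2 hc M hM hMc
  obtain ⟨e3, -⟩ := h2 N (by omega) x hx1 hx2 0 (by rw [abs_zero]; positivity)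
  have hL2 := h4 N (by omega)
  have hN1 : (1 : ℝ) ≤ N := by exact_mod_cast (by omega : 1 ≤ N)
  obtain ⟨g', hg'⟩ : ∃ g' : ℕ → ℕ → ℂ, g' = fun l n => if a l * n ≤ B * N then g l n else 0 := ⟨_, rfl⟩
  have key := h3 N (by omega) {i // i ∈ M} (fun i => ⌊c + α * ((f.eval ((i.1 : ℕ) : ℤ) : ℤ) : ℝ)⌋) (by
      intro i
      have k1 := e3 i.1 (hM i.2)
      rw [zero_add] at k1
      have k2 : |((f.eval ((i.1 : ℕ) : ℤ) : ℤ) : ℝ)| ≤ B2 * N := by
        rw [← Int.cast_abs]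
        exact_mod_cast k1
      obtain ⟨y, hy⟩ : ∃ y, y = c + α * ((f.eval ((i.1 : ℕ) : ℤ) : ℤ) : ℝ) := ⟨_, rfl⟩
      rw [← hy]
      have k3 : |y| ≤ (B + B * B2) * N := by
        rw [hy]
        refine (abs_add_le _ _).trans ?_
        have k4 : |α * ((f.eval ((i.1 : ℕ) : ℤ) : ℤ) : ℝ)| ≤ B * (B2 * N) := by
          rw [abs_mul]
          exact mul_le_mul hα2 k2 (abs_nonneg _) (Nat.cast_nonneg _)
        linarith
      have k5 : |((⌊y⌋ : ℤ) : ℝ)| ≤ (B + B * B2 + 1) * N := by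
        have k6 := Int.floor_le y
        have k7 := Int.lt_floor_add_one y
        have k8 := abs_le.1 k3
        rw [abs_le]
        constructor <;> nlinarith [k8.1, k8.2]
      rw [← Int.cast_abs] at k5
      exact_mod_cast k5) e2 L hL a g' ha (by
      intro l hl n hn _
      rw [hg']
      simp only
      split_ifs with h5
      · exact hg l hl n hn h5
      · rw [norm_zero]
        exact pow_nonneg (by linarith) _)
      (univ.filter (fun i : {i // i ∈ M} => i.1 ∈ S)) (by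
      intro i hi
      rw [mem_filter] at hi
      obtain ⟨h, m1, l, hl, X, hX, hbig⟩ := hbad i.1 hi.2
      refine ⟨h - ⌊c + α * ((f.eval ((i.1 : ℕ) : ℤ) : ℤ) : ℝ)⌋, ?_, l, hl, X, ?_, lt_of_lt_of_eq hbig ?_⟩
      · obtain ⟨y, hy⟩ : ∃ y, y = c + α * ((f.eval ((i.1 : ℕ) : ℤ) : ℤ) : ℝ) := ⟨_, rfl⟩
        rw [← hy] at m1 ⊢
        push_cast
        have k1 := Int.floor_le y
        have k2 := Int.lt_floor_add_one y
        have k3 : 1 ≤ Real.log (N : ℝ) ^ W := one_le_pow₀ (by linarith)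
        have k4 : Real.log (N : ℝ) ^ W * 2 ≤ Real.log (N : ℝ) ^ (W + 1) := by
          rw [pow_succ]
          exact mul_le_mul_of_nonneg_left hL2 (by linarith)
        rw [abs_le] at m1 ⊢
        constructor <;> linarith [m1.1, m1.2]
      · refine hX.trans (Nat.mul_le_mul_right _ ?_)
        omega
      · congr 1
        apply sum_congr rfl
        intro n hn
        rw [mem_Icc] at hn
        rw [hg']
        simp only
        rw [if_pos ((Nat.mul_le_mul_left _ hn.2).trans hX)]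
        congr 2
        ring)
  rw [Fintype.card_coe, card_sub M S hS] at key
  exact key

end Pool.Agent.H544G
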