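import Pool.Agent.H544G.Dense

set_option autoImplicit false

/-! The additive energy of the integer parts of real dilates and translates of the values of a polynomial at the
elements of a dense set; Goldbach pairs in all windows for all the even integers close to such real numbers. -/

namespace Pool.Agent.H544G
open Finset Polynomial
open Pool.Agent.TH935.GF (En)
open Pool.Agent.H373R2.T7 (energy ev_L' ev_log')

/-- the number of the solutions of `σ a = σ b + t` is largest for `t = 0` -/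
lemma corr_le {β : Type} (A : Finset β) (σ : β → ℤ) (t : ℤ) :
    ((A ×ˢ A).filter (fun q => σ q.1 = σ q.2 + t)).card ≤ ((A ×ˢ A).filter (fun q => σ q.1 = σ q.2)).card := by
  classical
  obtain ⟨r, hr⟩ : ∃ r : ℤ → ℕ, r = fun m => (A.filter (fun a => σ a = m)).card := ⟨_, rfl⟩
  have key : ∀ u : ℤ, ((A ×ˢ A).filter (fun q => σ q.1 = σ q.2 + u)).card = ∑ m ∈ A.image σ, r m * r (m + u) := by
    intro u
    rw [card_filter, sum_product_right]
    have h1 : ∀ b ∈ A, (∑ a ∈ A, if σ a = σ b + u then 1 else 0) = r (σ b + u) := by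
      intro b _
      rw [hr]
      simp only
      rw [card_filter]
    rw [sum_congr rfl h1, sum_comp (fun m => r (m + u)) σ]
    apply sum_congr rfl
    intro m _
    rw [hr, smul_eq_mul]
  have h0 : ((A ×ˢ A).filter (fun q => σ q.1 = σ q.2)).card = ∑ m ∈ A.image σ, r m * r m := by
    have h1 := key 0
    simp only [add_zero] at h1
    exact h1
  have h2 : ∑ m ∈ A.image σ, r (m + t) ^ 2 ≤ ∑ m ∈ A.image σ, r m ^ 2 := by
    have hz : ∀ m, r m ≠ 0 → m ∈ A.image σ := by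
      intro m hm
      rw [hr] at hm
      simp only at hm
      obtain ⟨a, ha⟩ := card_pos.1 (Nat.pos_of_ne_zero hm)
      rw [mem_filter] at ha
      exact mem_image.2 ⟨a, ha.1, ha.2⟩
    have h3 : ∑ m ∈ A.image σ, r (m + t) ^ 2 = ∑ m ∈ (A.image σ).map (addRightEmbedding t), r m ^ 2 := by
      rw [sum_map]
      rfl
    rw [h3]
    have h4 : ∑ m ∈ (A.image σ).map (addRightEmbedding t), r m ^ 2 =
        ∑ m ∈ ((A.image σ).map (addRightEmbedding t)).filter (fun m => m ∈ A.image σ), r m ^ 2 := by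
      symm
      apply sum_filter_of_ne
      intro m _ hm
      apply hz
      intro h5
      rw [h5] at hm
      exact hm rfl
    rw [h4]
    apply sum_le_sum_of_subset
    intro m hm
    exact (mem_filter.1 hm).2
  rw [key t, h0]
  have h5 : 2 * ∑ m ∈ A.image σ, r m * r (m + t) ≤ ∑ m ∈ A.image σ, r m ^ 2 + ∑ m ∈ A.image σ, r (m + t) ^ 2 := by
    rw [mul_sum, ← sum_add_distrib]
    apply sum_le_sum
    intro m _
    have := two_mul_le_add_sq (r m) (r (m + t))
    linarith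
  have h6 : ∑ m ∈ A.image σ, r m * r m = ∑ m ∈ A.image σ, r m ^ 2 := sum_congr rfl fun m _ => by ring
  rw [h6]
  omega

/-- the energy of a family close to a family of small energy -/
lemma En_near (h x T : ℕ) (s : ℕ → ℤ) (M : Finset ℕ) (hM : M ⊆ Icc 1 x) (v : {i // i ∈ M} → ℤ)
    (hv : ∀ a b : Fin h → {i // i ∈ M}, ∑ j, v (a j) = ∑ j, v (b j) →
      |∑ j, s (a j).1 - ∑ j, s (b j).1| ≤ (T : ℤ)) :
    En h v ≤ (2 * T + 1) * energy h x s := by
  classical
  obtain ⟨Q, hQ⟩ : ∃ Q : Finset (Fin h → ℕ), Q = Fintype.piFinset (fun _ : Fin h => Icc 1 x) := ⟨_, rfl⟩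
  obtain ⟨σ, hσ⟩ : ∃ σ : (Fin h → ℕ) → ℤ, σ = fun a => ∑ j, s (a j) := ⟨_, rfl⟩
  have h1 : En h v ≤ ∑ t ∈ Icc (-(T : ℤ)) T, ((Q ×ˢ Q).filter (fun q => σ q.1 = σ q.2 + t)).card := by
    unfold En
    rw [Nat.card_eq_fintype_card, Fintype.card_subtype]
    refine le_trans ?_ (card_biUnion_le (s := Icc (-(T : ℤ)) T)
      (t := fun t => (Q ×ˢ Q).filter (fun q => σ q.1 = σ q.2 + t)))
    apply card_le_card_of_injOn
      (fun q : (Fin h → {i // i ∈ M}) × (Fin h → {i // i ∈ M}) => ((fun j => (q.1 j).1), (fun j => (q.2 j).1)))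
    · intro q hq
      rw [mem_coe, mem_filter] at hq
      rw [mem_coe, mem_biUnion]
      have h2 := hv q.1 q.2 hq.2
      refine ⟨∑ j, s (q.1 j).1 - ∑ j, s (q.2 j).1, ?_, ?_⟩
      · rw [mem_Icc]
        exact abs_le.1 h2
      · rw [mem_filter, mem_product, hQ, Fintype.mem_piFinset, Fintype.mem_piFinset, hσ]
        refine ⟨⟨fun j => hM (q.1 j).2, fun j => hM (q.2 j).2⟩, ?_⟩
        simp only
        ring
    · intro q _ q' _ h2
      simp only [Prod.mk.injEq] at h2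
      apply Prod.ext
      · funext j
        exact Subtype.ext (congrFun h2.1 j)
      · funext j
        exact Subtype.ext (congrFun h2.2 j)
  refine h1.trans ?_
  have h3 : ∀ t ∈ Icc (-(T : ℤ)) T, ((Q ×ˢ Q).filter (fun q => σ q.1 = σ q.2 + t)).card ≤ energy h x s := by
    intro t _
    refine (corr_le Q σ t).trans (le_of_eq ?_)
    unfold energy
    rw [hQ, hσ]
  refine (sum_le_sum h3).trans (le_of_eq ?_)
  rw [sum_const, Int.card_Icc, smul_eq_mul]
  congr 1
  omega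

/-- the integer parts of the numbers `c + α f(i)`, `i` in a dense set, have nearly minimal energy of some order -/
theorem real_energy (f : ℤ[X]) (hd : 1 ≤ f.natDegree) (B C : ℕ) : ∃ p B' C' N₀ : ℕ, 1 ≤ p ∧
    ∀ N : ℕ, N₀ ≤ N → ∀ x : ℕ, x ^ f.natDegree ≤ B * N →
      (N : ℝ) ≤ Real.log N ^ C * (x : ℝ) ^ f.natDegree → ∀ α c : ℝ, 1 ≤ |α| * Real.log N ^ C → |α| ≤ B →
      |c| ≤ B * N → ∀ M : Finset ℕ, M ⊆ Icc 1 x → (x : ℝ) ≤ Real.log N ^ C * M.card →
      (∀ i : {i // i ∈ M}, ⌊c + α * ((f.eval ((i.1 : ℕ) : ℤ) : ℤ) : ℝ)⌋ ≤ B' * N) ∧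
      (En p (fun i : {i // i ∈ M} => ⌊c + α * ((f.eval ((i.1 : ℕ) : ℤ) : ℤ) : ℝ)⌋) : ℝ) * N ≤
        Real.log N ^ C' * (Fintype.card {i // i ∈ M} : ℝ) ^ (2 * p) := by
  classical
  obtain ⟨p, B', hBB, N1, h1⟩ := Pool.Agent.TH823.Fam.poly_family f hd B C
  rcases Nat.eq_zero_or_pos p with hp | hp
  · subst hp
    obtain ⟨N3, h3⟩ := ev_log' (C + 1) 1
    refine ⟨1, B', C, N1 + N3 + 4, le_rfl, fun N hN x hx1 hx2 α c _ _ _ M hM hMc => ?_⟩
    exfalso
    obtain ⟨-, g2⟩ := h1 N (by omega) x hx1 hx2 0 (by rw [abs_zero]; positivity)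
    rw [energy_zero, Nat.cast_one, one_mul, mul_zero, pow_zero, mul_one] at g2
    have h5 := h3 N (by omega)
    rw [one_mul] at h5
    have hN4 : (4 : ℝ) ≤ N := by exact_mod_cast (by omega : 4 ≤ N)
    have h6 : √(N : ℝ) * √(N : ℝ) = N := Real.mul_self_sqrt (by linarith)
    have h7 : 2 ≤ √(N : ℝ) := by
      apply Real.le_sqrt_of_sq_le
      linarith
    nlinarith
  · obtain ⟨N4, h4⟩ := ev_L' (2 * p + 1)
    refine ⟨p, B + B * B', (C + 1) + ((C + 1) + C * (2 * p)), N1 + N4, hp,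
      fun N hN x hx1 hx2 α c hα1 hα2 hc M hM hMc => ?_⟩
    obtain ⟨g1, g2⟩ := h1 N (by omega) x hx1 hx2 0 (by rw [abs_zero]; positivity)
    have hL := h4 N (by omega)
    obtain ⟨L, hLd⟩ : ∃ L, L = Real.log (N : ℝ) := ⟨_, rfl⟩
    rw [← hLd] at hL hα1 hMc g2 ⊢
    have hp1 : (1 : ℝ) ≤ p := by exact_mod_cast hp
    have hL1 : 1 ≤ L := by linarith
    have hL0 : 0 < L := by linarith
    have hα0 : 0 < |α| := by
      by_contra hcon
      have h0 : |α| = 0 := le_antisymm (not_lt.1 hcon) (abs_nonneg _)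
      rw [h0, zero_mul] at hα1
      linarith
    constructor
    · intro i
      have e1 := g1 i.1 (hM i.2)
      rw [zero_add] at e1
      have e2 : |((f.eval ((i.1 : ℕ) : ℤ) : ℤ) : ℝ)| ≤ B' * N := by
        rw [← Int.cast_abs]
        exact_mod_cast e1
      have e3 : c + α * ((f.eval ((i.1 : ℕ) : ℤ) : ℤ) : ℝ) ≤ ((B + B * B' : ℕ) : ℝ) * N := by
        have e4 : α * ((f.eval ((i.1 : ℕ) : ℤ) : ℤ) : ℝ) ≤ B * (B' * N) := by
          refine (le_abs_self _).trans ?_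
          rw [abs_mul]
          exact mul_le_mul hα2 e2 (abs_nonneg _) (Nat.cast_nonneg _)
        have e5 := (le_abs_self c).trans hc
        push_cast
        linarith
      have e6 := (Int.floor_le (c + α * ((f.eval ((i.1 : ℕ) : ℤ) : ℤ) : ℝ))).trans e3
      exact_mod_cast e6
    · obtain ⟨T, hT⟩ : ∃ T, T = ⌊(p : ℝ) * L ^ C⌋₊ := ⟨_, rfl⟩
      have hTle : (T : ℝ) ≤ p * L ^ C := by
        rw [hT]
        exact Nat.floor_le (by positivity)
      have hen := En_near p x T (fun m => 0 + f.eval (m : ℤ)) M hM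
        (fun i : {i // i ∈ M} => ⌊c + α * ((f.eval ((i.1 : ℕ) : ℤ) : ℤ) : ℝ)⌋) (by
          intro a b hab
          simp only [zero_add]
          obtain ⟨D, hD⟩ : ∃ D : ℤ, D = ∑ j, f.eval (((a j).1 : ℕ) : ℤ) - ∑ j, f.eval (((b j).1 : ℕ) : ℤ) := ⟨_, rfl⟩
          rw [← hD]
          have k1 : ∀ u : Fin p → {i // i ∈ M},
              (∑ j, ((⌊c + α * ((f.eval (((u j).1 : ℕ) : ℤ) : ℤ) : ℝ)⌋ : ℤ) : ℝ)) ≤
                p * c + α * ((∑ j, f.eval (((u j).1 : ℕ) : ℤ) : ℤ) : ℝ) ∧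
              p * c + α * ((∑ j, f.eval (((u j).1 : ℕ) : ℤ) : ℤ) : ℝ) ≤
                (∑ j, ((⌊c + α * ((f.eval (((u j).1 : ℕ) : ℤ) : ℤ) : ℝ)⌋ : ℤ) : ℝ)) + p := by
            intro u
            have k2 : p * c + α * ((∑ j, f.eval (((u j).1 : ℕ) : ℤ) : ℤ) : ℝ) =
                ∑ j, (c + α * ((f.eval (((u j).1 : ℕ) : ℤ) : ℤ) : ℝ)) := by
              rw [sum_add_distrib, ← mul_sum, sum_const, card_univ, Fintype.card_fin, nsmul_eq_mul]
              push_cast
              ring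
            rw [k2]
            refine ⟨sum_le_sum fun j _ => Int.floor_le _, ?_⟩
            have k3 : (∑ j : Fin p, ((⌊c + α * ((f.eval (((u j).1 : ℕ) : ℤ) : ℤ) : ℝ)⌋ : ℤ) : ℝ)) + p =
                ∑ j : Fin p, (((⌊c + α * ((f.eval (((u j).1 : ℕ) : ℤ) : ℤ) : ℝ)⌋ : ℤ) : ℝ) + 1) := by
              rw [sum_add_distrib, sum_const, card_univ, Fintype.card_fin, nsmul_eq_mul, mul_one]
            rw [k3]
            exact sum_le_sum fun j _ => (Int.lt_floor_add_one _).le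
          have k4 : (∑ j, ((⌊c + α * ((f.eval (((a j).1 : ℕ) : ℤ) : ℤ) : ℝ)⌋ : ℤ) : ℝ)) =
              (∑ j, ((⌊c + α * ((f.eval (((b j).1 : ℕ) : ℤ) : ℤ) : ℝ)⌋ : ℤ) : ℝ)) := by
            exact_mod_cast hab
          obtain ⟨ka1, ka2⟩ := k1 a
          obtain ⟨kb1, kb2⟩ := k1 b
          have k5 : |α * (D : ℝ)| ≤ p := by
            have k6 : α * (D : ℝ) = (p * c + α * ((∑ j, f.eval (((a j).1 : ℕ) : ℤ) : ℤ) : ℝ)) -
                (p * c + α * ((∑ j, f.eval (((b j).1 : ℕ) : ℤ) : ℤ) : ℝ)) := by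
              rw [hD]
              push_cast
              ring
            rw [k6, abs_le]
            constructor <;> linarith
          have k7 : |(D : ℝ)| ≤ p * L ^ C := by
            rw [abs_mul] at k5
            have k8 : (0 : ℝ) ≤ |(D : ℝ)| := abs_nonneg _
            have k9 : 0 ≤ L ^ C := by positivity
            calc |(D : ℝ)| = 1 * |(D : ℝ)| := (one_mul _).symm
              _ ≤ (|α| * L ^ C) * |(D : ℝ)| := mul_le_mul_of_nonneg_right hα1 k8
              _ = (|α| * |(D : ℝ)|) * L ^ C := by ring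
              _ ≤ p * L ^ C := mul_le_mul_of_nonneg_right k5 k9
          have k10 : D.natAbs ≤ T := by
            rw [hT]
            apply Nat.le_floor
            rw [Nat.cast_natAbs, Int.cast_abs]
            exact k7
          rw [Int.abs_eq_natAbs]
          exact_mod_cast k10)
      have hen' : (En p (fun i : {i // i ∈ M} => ⌊c + α * ((f.eval ((i.1 : ℕ) : ℤ) : ℤ) : ℝ)⌋) : ℝ) ≤
          (2 * T + 1) * energy p x (fun m => 0 + f.eval (m : ℤ)) := by exact_mod_cast hen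
      have h2T : (2 * (T : ℝ) + 1) ≤ L ^ (C + 1) := by
        have h5 : 1 ≤ L ^ C := one_le_pow₀ hL1
        calc 2 * (T : ℝ) + 1 ≤ 2 * (p * L ^ C) + L ^ C := by linarith
          _ = (2 * p + 1) * L ^ C := by ring
          _ ≤ L * L ^ C := mul_le_mul_of_nonneg_right hL (by positivity)
          _ = L ^ (C + 1) := by ring
      rw [Fintype.card_coe]
      calc (En p (fun i : {i // i ∈ M} => ⌊c + α * ((f.eval ((i.1 : ℕ) : ℤ) : ℤ) : ℝ)⌋) : ℝ) * N
          ≤ ((2 * T + 1) * energy p x (fun m => 0 + f.eval (m : ℤ))) * N :=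
            mul_le_mul_of_nonneg_right hen' (Nat.cast_nonneg _)
        _ = (2 * T + 1) * ((energy p x (fun m => 0 + f.eval (m : ℤ)) : ℝ) * N) := by ring
        _ ≤ L ^ (C + 1) * (L ^ (C + 1) * (x : ℝ) ^ (2 * p)) := mul_le_mul h2T g2 (by positivity) (by positivity)
        _ ≤ L ^ (C + 1) * (L ^ (C + 1) * (L ^ C * M.card) ^ (2 * p)) := by
            apply mul_le_mul_of_nonneg_left _ (by positivity)
            apply mul_le_mul_of_nonneg_left _ (by positivity)
            exact pow_le_pow_left₀ (Nat.cast_nonneg _) hMc _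
        _ = L ^ ((C + 1) + ((C + 1) + C * (2 * p))) * (M.card : ℝ) ^ (2 * p) := by
            rw [mul_pow, ← pow_mul, pow_add _ (C + 1), pow_add _ (C + 1) (C * (2 * p))]
            ring

/-- Goldbach pairs in all windows for all the even integers close to the real numbers `c + α f(i)`, for almost all `i`
in a dense set -/
theorem dense_real (f : ℤ[X]) (hd : 1 ≤ f.natDegree) (A B C W U m₀ : ℕ) (ε : ℝ) (hε : 0 < ε) (P : ℕ → Prop)
    (hP : ∀ m : ℕ, m₀ ≤ m → 2 ∣ m → Pool.Agent.W93.PG.WinP ε A m → P m) :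
    ∃ N₀ : ℕ, ∀ N : ℕ, N₀ ≤ N → ∀ x : ℕ, x ^ f.natDegree ≤ B * N →
      (N : ℝ) ≤ Real.log N ^ C * (x : ℝ) ^ f.natDegree → ∀ α c : ℝ, 1 ≤ |α| * Real.log N ^ C → |α| ≤ B →
      |c| ≤ B * N → ∀ M : Finset ℕ, M ⊆ Icc 1 x → (x : ℝ) ≤ Real.log N ^ C * M.card →
      ∀ S : Finset ℕ, S ⊆ M → (∀ i ∈ S, ∃ m : ℕ, 0 < m ∧ Even m ∧
        |(m : ℝ) - (c + α * ((f.eval (i : ℤ) : ℤ) : ℝ))| ≤ Real.log N ^ W ∧ ¬ P m) →
      (S.card : ℝ) ≤ M.card / Real.log N ^ U := by
  classical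
  obtain ⟨p, B', C', N1, hp, h1⟩ := real_energy f hd B C
  obtain ⟨N2, h2⟩ := Pool.Agent.R459.near_even p A B' C' (W + 1) U m₀ hp ε hε P hP
  obtain ⟨N3, h3⟩ := ev_L' 2
  refine ⟨N1 + N2 + N3, fun N hN x hx1 hx2 α c hα1 hα2 hc M hM hMc S hS hbad => ?_⟩
  obtain ⟨g1, g2⟩ := h1 N (by omega) x hx1 hx2 α c hα1 hα2 hc M hM hMc
  have hL := h3 N (by omega)
  have key := h2 N (by omega) {i // i ∈ M} (fun i => ⌊c + α * ((f.eval ((i.1 : ℕ) : ℤ) : ℤ) : ℝ)⌋) g1 g2
    (univ.filter (fun i : {i // i ∈ M} => i.1 ∈ S)) (by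
      intro i hi
      rw [mem_filter] at hi
      obtain ⟨m, hm0, hm1, hm2, hm3⟩ := hbad i.1 hi.2
      refine ⟨m, hm0, hm1, ?_, hm3⟩
      obtain ⟨y, hy⟩ : ∃ y, y = c + α * ((f.eval ((i.1 : ℕ) : ℤ) : ℤ) : ℝ) := ⟨_, rfl⟩
      rw [← hy] at hm2 ⊢
      push_cast
      have e1 := Int.floor_le y
      have e2 := Int.lt_floor_add_one y
      have e3 : 1 ≤ Real.log (N : ℝ) ^ W := one_le_pow₀ (by linarith)
      have e4 : Real.log (N : ℝ) ^ W * 2 ≤ Real.log (N : ℝ) ^ (W + 1) := by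
        rw [pow_succ]
        exact mul_le_mul_of_nonneg_left hL (by linarith)
      rw [abs_le] at hm2 ⊢
      constructor <;> linarith [hm2.1, hm2.2])
  rw [Fintype.card_coe, card_sub M S hS] at key
  exact key

end Pool.Agent.H544G
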