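import Pool.Agent.W93.PG7

set_option autoImplicit false

/-! From Goldbach pairs in all windows to Goldbach pairs with the smaller prime above the square root. -/

namespace Pool.Agent.H544G
open Finset
open Pool.Agent.H560R3.GB (sing)

lemma win_base (A : ℕ) (ε : ℝ) (hε : 0 < ε) : ∃ m₀ : ℕ, ∀ m : ℕ, m₀ ≤ m →
    Pool.Agent.W93.PG.WinP (min ε (1 / 2)) (A + 1) m →
    (∃ p : ℕ, p.Prime ∧ (m - p).Prime ∧ √(m : ℝ) < p ∧ 2 * p < m) ∧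
    ∀ y₁ y₂ : ℕ, y₁ < y₂ → y₂ ≤ m → (m : ℝ) / Real.log m ^ A ≤ (y₂ : ℝ) - y₁ →
      (∃ p : ℕ, y₁ < p ∧ p ≤ y₂ ∧ p.Prime ∧ (m - p).Prime) ∧
      |(((Ioc y₁ y₂).filter (fun p => p.Prime ∧ (m - p).Prime)).card : ℝ) -
        sing m * ((y₂ : ℝ) - y₁) / Real.log m ^ 2| ≤ ε * (sing m * ((y₂ : ℝ) - y₁) / Real.log m ^ 2) := by
  obtain ⟨n1, h1⟩ := Pool.Agent.H373R2.T7.ev_L' 8
  refine ⟨n1 + 64, fun m hm hwin => ?_⟩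
  have a1 := h1 m (by omega)
  have hm64 : (64 : ℝ) ≤ m := by exact_mod_cast (by omega : 64 ≤ m)
  have hm0 : (0 : ℝ) < m := by linarith
  have hs := Pool.Agent.W93.GB.one_le_sing m
  obtain ⟨S, hS⟩ : ∃ S, S = sing m := ⟨_, rfl⟩
  obtain ⟨M, hM⟩ : ∃ M, M = Real.log (m : ℝ) := ⟨_, rfl⟩
  unfold Pool.Agent.W93.PG.WinP at hwin
  rw [← hM] at a1 hwin ⊢
  rw [← hS] at hs hwin ⊢
  have hM0 : 0 < M := by linarith
  have hM1 : 1 ≤ M := by linarith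
  have hcnt : ∀ y₁ y₂, Pool.Agent.W93.PG.cnt m y₁ y₂ =
      ((Ioc y₁ y₂).filter (fun p => p.Prime ∧ (m - p).Prime)).card := fun _ _ => rfl
  simp only [hcnt] at hwin
  have hex : ∀ y₁ y₂ : ℕ, y₁ < y₂ → y₂ ≤ m → (m : ℝ) / M ^ (A + 1) ≤ (y₂ : ℝ) - y₁ →
      ∃ p : ℕ, y₁ < p ∧ p ≤ y₂ ∧ p.Prime ∧ (m - p).Prime := by
    intro y₁ y₂ h12 hy2 hlen
    have hw := hwin y₁ y₂ h12 hy2 hlen
    have hy : (0 : ℝ) < (y₂ : ℝ) - y₁ := by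
      have : (y₁ : ℝ) < y₂ := by exact_mod_cast h12
      linarith
    have hX : 0 < S * ((y₂ : ℝ) - y₁) / M ^ 2 := by positivity
    have h6 := hw.trans (mul_le_mul_of_nonneg_right (min_le_right ε (1 / 2)) hX.le)
    have h7 : (0 : ℝ) < (((Ioc y₁ y₂).filter (fun p => p.Prime ∧ (m - p).Prime)).card : ℝ) := by
      rw [abs_le] at h6
      linarith [h6.1]
    have h8 : 0 < ((Ioc y₁ y₂).filter (fun p => p.Prime ∧ (m - p).Prime)).card := by exact_mod_cast h7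
    rw [card_pos] at h8
    obtain ⟨p, hp⟩ := h8
    rw [mem_filter, mem_Ioc] at hp
    exact ⟨p, hp.1.1, hp.1.2, hp.2.1, hp.2.2⟩
  have hle : (m : ℝ) / M ^ (A + 1) ≤ m / M ^ A := by
    apply div_le_div_of_nonneg_left hm0.le (by positivity)
    exact pow_le_pow_right₀ hM1 (by omega)
  constructor
  · have hsq : √(m : ℝ) * √(m : ℝ) = m := Real.mul_self_sqrt hm0.le
    have hs8 : 8 ≤ √(m : ℝ) := by
      apply Real.le_sqrt_of_sq_le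
      linarith
    have hlen8 : (m : ℝ) / M ^ (A + 1) ≤ m / 8 := by
      apply div_le_div_of_nonneg_left hm0.le (by norm_num)
      calc (8 : ℝ) ≤ M := a1
        _ ≤ M ^ (A + 1) := le_self_pow₀ hM1 (by omega)
    obtain ⟨y, hy⟩ : ∃ y, y = ⌈√(m : ℝ)⌉₊ := ⟨_, rfl⟩
    have hy1 : √(m : ℝ) ≤ y := by rw [hy]; exact Nat.le_ceil _
    have hy2 : (y : ℝ) < √(m : ℝ) + 1 := by rw [hy]; exact Nat.ceil_lt_add_one (Real.sqrt_nonneg _)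
    obtain ⟨z, hz⟩ : ∃ z, z = (m - 1) / 2 := ⟨_, rfl⟩
    have hz1 : m ≤ 2 * z + 2 := by omega
    have hz2 : 2 * z < m := by omega
    have hz1r : (m : ℝ) ≤ 2 * z + 2 := by exact_mod_cast hz1
    have hlen : (m : ℝ) / 8 ≤ (z : ℝ) - y := by nlinarith
    have hyz : y < z := by
      have : (y : ℝ) < z := by linarith
      exact_mod_cast this
    obtain ⟨p, p1, p2, p3, p4⟩ := hex y z hyz (by omega) (hlen8.trans hlen)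
    refine ⟨p, p3, p4, ?_, by omega⟩
    refine hy1.trans_lt ?_
    exact_mod_cast p1
  · intro y₁ y₂ h12 hy2' hlen
    refine ⟨hex y₁ y₂ h12 hy2' (hle.trans hlen), ?_⟩
    have hy : (0 : ℝ) < (y₂ : ℝ) - y₁ := by
      have : (y₁ : ℝ) < y₂ := by exact_mod_cast h12
      linarith
    have hX : 0 < S * ((y₂ : ℝ) - y₁) / M ^ 2 := by positivity
    exact (hwin y₁ y₂ h12 hy2' (hle.trans hlen)).trans (mul_le_mul_of_nonneg_right (min_le_left _ _) hX.le)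

lemma win_props (A : ℕ) (ε : ℝ) (hε : 0 < ε) : ∃ m₀ : ℕ, ∀ m : ℕ, m₀ ≤ m → 2 ∣ m →
    Pool.Agent.W93.PG.WinP (min ε (1 / 2)) (A + 1) m →
    (∃ p : ℕ, p.Prime ∧ (m - p).Prime ∧ √(m : ℝ) < p ∧ 2 * p < m) ∧
    ∀ y₁ y₂ : ℕ, y₁ < y₂ → √(m : ℝ) ≤ y₁ → 2 * y₂ < m → (m : ℝ) / Real.log m ^ A ≤ (y₂ : ℝ) - y₁ →
      (∃ p : ℕ, y₁ < p ∧ p ≤ y₂ ∧ p.Prime ∧ (m - p).Prime) ∧
      |(((Ioc y₁ y₂).filter (fun p => p.Prime ∧ (m - p).Prime)).card : ℝ) -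
        sing m * ((y₂ : ℝ) - y₁) / Real.log m ^ 2| ≤ ε * (sing m * ((y₂ : ℝ) - y₁) / Real.log m ^ 2) := by
  obtain ⟨m₀, h⟩ := win_base A ε hε
  refine ⟨m₀, fun m hm _ hwin => ?_⟩
  obtain ⟨h1, h2⟩ := h m hm hwin
  exact ⟨h1, fun y₁ y₂ h12 _ hy2 hlen => h2 y₁ y₂ h12 (by omega) hlen⟩

lemma win_double (A : ℕ) (ε : ℝ) (hε : 0 < ε) : ∃ m₀ : ℕ, ∀ n : ℕ, m₀ ≤ 2 * n →
    Pool.Agent.W93.PG.WinP (min ε (1 / 2)) (A + 1) (2 * n) →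
    (∃ p q : ℕ, p.Prime ∧ q.Prime ∧ p ≠ q ∧ p + q = 2 * n) ∧
    ∀ y₁ y₂ : ℕ, y₁ < y₂ → y₂ < n → ((2 * n : ℕ) : ℝ) / Real.log ((2 * n : ℕ) : ℝ) ^ A ≤ (y₂ : ℝ) - y₁ →
      (∃ p q : ℕ, p.Prime ∧ q.Prime ∧ n < p ∧ y₁ < q ∧ q ≤ y₂ ∧ p + q = 2 * n) ∧
      |(((Ioc y₁ y₂).filter (fun q => q.Prime ∧ (2 * n - q).Prime)).card : ℝ) -
        sing (2 * n) * ((y₂ : ℝ) - y₁) / Real.log ((2 * n : ℕ) : ℝ) ^ 2| ≤
          ε * (sing (2 * n) * ((y₂ : ℝ) - y₁) / Real.log ((2 * n : ℕ) : ℝ) ^ 2) := by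
  obtain ⟨m₀, h⟩ := win_base A ε hε
  refine ⟨m₀, fun n hn hwin => ?_⟩
  obtain ⟨⟨p, p1, p2, -, p4⟩, h2⟩ := h (2 * n) hn hwin
  refine ⟨⟨2 * n - p, p, p2, p1, by omega, by omega⟩, fun y₁ y₂ h12 hy2 hlen => ?_⟩
  obtain ⟨⟨q, q1, q2, q3, q4⟩, h4⟩ := h2 y₁ y₂ h12 (by omega) hlen
  exact ⟨⟨2 * n - q, q, q4, q3, by omega, q1, q2, by omega⟩, h4⟩

end Pool.Agent.H544G
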